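import Mathlib

/-!
# Representations of finite `p`-groups are spanned by eigenvectors of subgroups of small index
-/

set_option autoImplicit false
set_option linter.all false

open scoped Classical

namespace Pool.Agent.Helper70.Thin.MON

/-- the set of the eigenvectors of subgroups of small index -/
def ES {Ω R W : Type} [Field Ω] [Group R] [AddCommGroup W] [Module Ω W]
    (r : Representation Ω R W) : Set W :=
  {x : W | ∃ (H : Subgroup R) (χ : H →* Ωˣ), H.index ≤ Module.finrank Ω W ∧
    ∀ h : H, r h x = ((χ h : Ωˣ) : Ω) • x}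

variable {Ω : Type} [Field Ω] {R : Type} [Group R] {W : Type} [AddCommGroup W] [Module Ω W]

theorem r_mul (r : Representation Ω R W) (g h : R) (x : W) : r (g * h) x = r g (r h x) := by
  rw [map_mul]; rfl

theorem r_inv (r : Representation Ω R W) (g : R) (x : W) : r g⁻¹ (r g x) = x := by
  rw [← r_mul, inv_mul_cancel, map_one]; rfl

theorem r_inv' (r : Representation Ω R W) (g : R) (x : W) : r g (r g⁻¹ x) = x := by
  rw [← r_mul, mul_inv_cancel, map_one]; rfl

theorem r_inj (r : Representation Ω R W) (g : R) {x : W} (h : r g x = 0) : x = 0 := by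
  rw [← r_inv r g x, h, map_zero]

/-- all operators are scalars -/
theorem span_of_scalar [FiniteDimensional Ω W] (r : Representation Ω R W)
    (h : ∀ g : R, ∃ c : Ω, ∀ x, r g x = c • x) : Submodule.span Ω (ES r) = ⊤ := by
  by_cases hW : Subsingleton W
  · exact Subsingleton.elim _ _
  · rw [not_subsingleton_iff_nontrivial] at hW
    obtain ⟨x0, hx0⟩ := exists_ne (0 : W)
    choose c hc using h
    have h1 : c 1 = 1 := by
      have := hc 1 x0
      rw [map_one] at this
      have h2 : (1 : Ω) • x0 = c 1 • x0 := by rw [one_smul]; exact this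
      exact (smul_left_injective Ω hx0 h2).symm
    have hm : ∀ g h, c (g * h) = c g * c h := by
      intro g h
      have h2 : c (g * h) • x0 = (c g * c h) • x0 := by
        rw [← hc, r_mul, hc h, map_smul, hc g, smul_smul, mul_comm]
      exact smul_left_injective Ω hx0 h2
    let f : R →* Ω := { toFun := c, map_one' := h1, map_mul' := hm }
    rw [eq_top_iff]
    intro x _
    refine Submodule.subset_span ⟨⊤, f.toHomUnits.comp (⊤ : Subgroup R).subtype, ?_, ?_⟩
    · rw [Subgroup.index_top]
      exact Module.finrank_pos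
    · intro g
      exact hc g x

/-- the commutator character of an element which is central modulo the scalars -/
theorem exists_zeta [Nontrivial W] (r : Representation Ω R W) (z : R)
    (hz : ∀ g : R, ∃ c : Ω, ∀ x, r z (r g x) = c • r g (r z x)) :
    ∃ ζ : R →* Ωˣ, ∀ g x, r z (r g x) = ((ζ g : Ωˣ) : Ω) • r g (r z x) := by
  obtain ⟨x0, hx0⟩ := exists_ne (0 : W)
  choose c hc using hz
  have hnz : ∀ g, r g (r z x0) ≠ 0 := fun g h => hx0 (r_inj r z (r_inj r g h))
  have h1 : c 1 = 1 := by
    have := hc 1 x0
    have h3 : (1 : Ω) • r 1 (r z x0) = c 1 • r 1 (r z x0) := by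
      rw [one_smul, ← this, map_one]; rfl
    exact (smul_left_injective Ω (hnz 1) h3).symm
  have hm : ∀ g h, c (g * h) = c g * c h := by
    intro g h
    have h2 : c (g * h) • r (g * h) (r z x0) = (c g * c h) • r (g * h) (r z x0) := by
      rw [← hc, r_mul, hc g, hc h, map_smul, smul_smul, r_mul]
    exact smul_left_injective Ω (hnz _) h2
  let f : R →* Ω := { toFun := c, map_one' := h1, map_mul' := hm }
  exact ⟨f.toHomUnits, fun g x => hc g x⟩

/-- the translates of an eigenspace -/
theorem card_mul_le [Finite R] [FiniteDimensional Ω W] (r : Representation Ω R W) (z : R)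
    (ζ : R →* Ωˣ) (hζ : ∀ g x, r z (r g x) = ((ζ g : Ωˣ) : Ω) • r g (r z x)) (lam : Ω) :
    Module.finrank Ω (Module.End.eigenspace (r z) lam) * ζ.ker.index ≤ Module.finrank Ω W := by
  by_cases hl : lam = 0
  · have : Module.End.eigenspace (r z) lam = ⊥ := by
      rw [eq_bot_iff]
      intro x hx
      rw [Module.End.mem_eigenspace_iff, hl, zero_smul] at hx
      exact (Submodule.mem_bot Ω).2 (r_inj r z hx)
    rw [this]
    simp
  rw [Subgroup.index_ker]
  have hfin : Finite ζ.range := Set.finite_range ζ |>.to_subtype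
  haveI : Fintype ζ.range := Fintype.ofFinite _
  rw [Nat.card_eq_fintype_card, mul_comm]
  have hch : ∀ μ : ζ.range, ∃ g : R, ζ g = μ := fun μ => μ.2
  choose γ hγ using hch
  set E := Module.End.eigenspace (r z) lam with hE
  let Φ : (ζ.range → E) →ₗ[Ω] W :=
    { toFun := fun x => ∑ μ, r (γ μ) (x μ : W)
      map_add' := by
        intro x y
        simp [Finset.sum_add_distrib]
      map_smul' := by
        intro a x
        simp [Finset.smul_sum] }
  have hΦ : Function.Injective Φ := by
    rw [← LinearMap.ker_eq_bot, LinearMap.ker_eq_bot']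
    intro x hx
    by_contra hne
    have hx' : ∑ μ, r (γ μ) (x μ : W) = 0 := hx
    -- the nonzero terms are linearly independent
    have hli : LinearIndependent Ω (fun μ : {μ : ζ.range // x μ ≠ 0} => r (γ μ) (x μ : W)) := by
      refine Module.End.eigenvectors_linearIndependent' (r z)
        (fun μ : {μ : ζ.range // x μ ≠ 0} => (((μ : ζ.range) : Ωˣ) : Ω) * lam) ?_ _ ?_
      · intro a b hab
        have : (((a : ζ.range) : Ωˣ) : Ω) = (((b : ζ.range) : Ωˣ) : Ω) :=
          mul_right_cancel₀ hl hab
        exact Subtype.ext (Subtype.ext (Units.ext this))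
      · intro a
        refine ⟨?_, ?_⟩
        · rw [Module.End.mem_eigenspace_iff, hζ, hγ]
          have h1 : r z (x a : W) = lam • (x a : W) := Module.End.mem_eigenspace_iff.1 (x a).2
          rw [h1, map_smul, smul_smul]
        · intro h0
          exact a.2 (Subtype.ext (r_inj r _ h0))
    have hsum : ∑ μ : {μ : ζ.range // x μ ≠ 0}, (1 : Ω) • r (γ μ) (x μ : W) = 0 := by
      rw [← hx']
      simp only [one_smul]
      rw [← Finset.sum_filter_add_sum_filter_not Finset.univ (fun μ => x μ ≠ 0)
        (fun μ => r (γ μ) (x μ : W))]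
      rw [Finset.sum_eq_zero (s := Finset.univ.filter (fun μ => ¬ x μ ≠ 0)), add_zero]
      · rw [← Finset.sum_subtype_eq_sum_filter]
        simp
      · intro μ hμ
        have : x μ = 0 := not_not.1 (Finset.mem_filter.1 hμ).2
        rw [this]; simp
    have hall := Fintype.linearIndependent_iff.1 hli (fun _ => 1) hsum
    apply hne
    funext μ
    by_contra hμ
    exact one_ne_zero (hall ⟨μ, hμ⟩)
  have := LinearMap.finrank_le_finrank_of_injective hΦ
  rwa [Module.finrank_pi_fintype, Finset.sum_const, Finset.card_univ, smul_eq_mul] at this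

/-- the restriction of the representation -/
noncomputable def res (r : Representation Ω R W) (H : Subgroup R) (E : Submodule Ω W)
    (hE : ∀ h ∈ H, ∀ x ∈ E, r h x ∈ E) : Representation Ω H E where
  toFun h := (r h).restrict (fun x hx => hE h h.2 x hx)
  map_one' := by
    ext x
    simp [LinearMap.restrict_apply]
  map_mul' := by
    intro a b
    ext x
    simp [LinearMap.restrict_apply]

theorem key (p : ℕ) [Fact p.Prime] (Ω : Type) [Field Ω] [IsAlgClosed Ω] [CharZero Ω] (N : ℕ) :
    ∀ (R : Type) [Group R] [Finite R], IsPGroup p R → ∀ (W : Type) [AddCommGroup W] [Module Ω W]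
      [FiniteDimensional Ω W] (r : Representation Ω R W), Module.finrank Ω W = N →
      Submodule.span Ω (ES r) = ⊤ := by
  induction N using Nat.strong_induction_on with
  | _ N ih =>
    intro R _ _ hR W _ _ _ r hN
    by_cases hsc : ∀ g : R, ∃ c : Ω, ∀ x, r g x = c • x
    · exact span_of_scalar r hsc
    have hnt : Nontrivial W := by
      by_contra hW
      rw [not_nontrivial_iff_subsingleton] at hW
      exact hsc (fun g => ⟨0, fun x => Subsingleton.elim _ _⟩)
    let Z : Subgroup R :=
      { carrier := {g | ∃ c : Ω, ∀ x, r g x = c • x}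
        one_mem' := ⟨1, fun x => by rw [map_one, one_smul]; rfl⟩
        mul_mem' := by
          rintro a b ⟨c, hc⟩ ⟨d, hd⟩
          exact ⟨d * c, fun x => by rw [r_mul, hd, map_smul, hc, smul_smul]⟩
        inv_mem' := by
          rintro a ⟨c, hc⟩
          refine ⟨c⁻¹, fun x => ?_⟩
          have h1 : c • r a⁻¹ x = x := by rw [← hc, r_inv']
          by_cases h0 : c = 0
          · rw [h0, zero_smul] at h1
            rw [← h1]; simp
          · conv_rhs => rw [← h1]
            rw [smul_smul, inv_mul_cancel₀ h0, one_smul] }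
    have hZn : Z.Normal := by
      refine ⟨?_⟩
      rintro a ⟨c, hc⟩ g
      refine ⟨c, fun x => ?_⟩
      rw [r_mul, r_mul, hc, map_smul, r_inv']
    have hZt : Z ≠ ⊤ := by
      intro h
      apply hsc
      intro g
      have : g ∈ Z := h ▸ Subgroup.mem_top g
      exact this
    haveI : Nontrivial (R ⧸ Z) := QuotientGroup.nontrivial_iff.2 hZt
    have hPQ : IsPGroup p (R ⧸ Z) := hR.to_quotient Z
    haveI := hPQ.center_nontrivial
    obtain ⟨⟨zb, hzb⟩, hzb1⟩ := exists_ne (1 : Subgroup.center (R ⧸ Z))
    obtain ⟨z, rfl⟩ := QuotientGroup.mk_surjective zb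
    have hzZ : z ∉ Z := by
      intro h
      apply hzb1
      apply Subtype.ext
      exact (QuotientGroup.eq_one_iff z).2 h
    have hz : ∀ g : R, ∃ c : Ω, ∀ x, r z (r g x) = c • r g (r z x) := by
      intro g
      have h1 : ((g * z : R) : R ⧸ Z) = ((z * g : R) : R ⧸ Z) := by
        have := (Subgroup.mem_center_iff.1 hzb) (g : R ⧸ Z)
        rw [QuotientGroup.mk_mul, QuotientGroup.mk_mul]
        exact this
      obtain ⟨c, hc⟩ : (g * z)⁻¹ * (z * g) ∈ Z := QuotientGroup.eq.1 h1
      refine ⟨c, fun x => ?_⟩
      have h2 : z * g = (g * z) * ((g * z)⁻¹ * (z * g)) := by group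
      rw [← r_mul, h2, r_mul, hc, map_smul, r_mul]
    obtain ⟨ζ, hζ⟩ := exists_zeta r z hz
    -- the operator `r z` is diagonalizable
    have hss : Module.End.IsSemisimple (r z) := by
      have hpos : 0 < orderOf z := orderOf_pos z
      have hsep : (Polynomial.X ^ orderOf z - 1 : Polynomial Ω).Separable :=
        Polynomial.separable_X_pow_sub_C 1 (Nat.cast_ne_zero.2 hpos.ne') one_ne_zero
      refine Module.End.isSemisimple_of_squarefree_aeval_eq_zero hsep.squarefree ?_
      rw [map_sub, map_pow, Polynomial.aeval_X, map_one, ← map_pow, pow_orderOf_eq_one, map_one,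
        sub_self]
    have htop := Module.End.IsSemisimple.iSup_eigenspace_eq_top hss
    rw [eq_top_iff, ← htop]
    refine iSup_le fun lam => ?_
    set E := Module.End.eigenspace (r z) lam with hEdef
    have hEtop : E ≠ ⊤ := by
      intro h
      apply hzZ
      refine ⟨lam, fun x => ?_⟩
      have : x ∈ E := h ▸ Submodule.mem_top
      exact Module.End.mem_eigenspace_iff.1 this
    have hElt : Module.finrank Ω E < N := by
      rw [← hN]
      exact Submodule.finrank_lt hEtop
    have hst : ∀ h ∈ ζ.ker, ∀ x ∈ E, r h x ∈ E := by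
      intro h hh x hx
      rw [hEdef, Module.End.mem_eigenspace_iff] at hx ⊢
      rw [hζ, MonoidHom.mem_ker.1 hh, Units.val_one, one_smul, hx, map_smul]
    have hind := ih (Module.finrank Ω E) hElt ζ.ker (hR.to_subgroup _) E (res r ζ.ker E hst) rfl
    have hle := card_mul_le r z ζ hζ lam
    have h1 : E = Submodule.map E.subtype ⊤ := by
      rw [Submodule.map_top, Submodule.range_subtype]
    rw [h1, ← hind, Submodule.map_span]
    refine Submodule.span_mono ?_
    rintro _ ⟨x, ⟨H, χ, hH, hχ⟩, rfl⟩
    refine ⟨H.map ζ.ker.subtype, χ.comp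
      (Subgroup.equivMapOfInjective H ζ.ker.subtype ζ.ker.subtype_injective).symm.toMonoidHom, ?_, ?_⟩
    · rw [Subgroup.index_map_subtype]
      exact (Nat.mul_le_mul_right _ hH).trans hle
    · intro h
      obtain ⟨h', rfl⟩ := (Subgroup.equivMapOfInjective H ζ.ker.subtype
        ζ.ker.subtype_injective).surjective h
      have h2 := congrArg (fun y : E => (y : W)) (hχ h')
      simp only [MonoidHom.comp_apply, MulEquiv.coe_toMonoidHom, MulEquiv.symm_apply_apply,
        Submodule.coe_subtype]
      exact h2

end Pool.Agent.Helper70.Thin.MON
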