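import Pool.Agent.Helper55.RT.Spec5
import Pool.Agent.Helper70.Thin.MonCore

/-!
# THIN-3, part MON
-/

set_option autoImplicit false
set_option linter.all false

namespace Pool.Agent.Helper70.Thin.MON

open Pool.Agent.Helper55.RT

theorem main : Q_MON := by
  intro p _ Ω _ _ _ R _ _ hR W _ _ _ r
  exact key p Ω _ R hR W r rfl

end Pool.Agent.Helper70.Thin.MON
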